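import Mathlib

set_option autoImplicit false

namespace Pool.Agent.Results.MP_6b7d8e_lc.NoExact

open Encodable Nat.Partrec

abbrev Str := List Bool

/-- `C_U(x | y)`, infinite when no program exists -/
noncomputable def Cx (U : Str → Str →. Str) (x y : Str) : ℕ∞ :=
  ⨅ p : {p : Str // x ∈ U p y}, (p.1.length : ℕ∞)

def PrefixFree (U : Str → Str →. Str) : Prop :=
  ∀ y p p', p <+: p' → (U p y).Dom → (U p' y).Dom → p = p'

def PrefixStable (U : Str → Str →. Str) : Prop :=
  ∀ y p p' x, p <+: p' → x ∈ U p y → x ∈ U p' y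

def Admissible (K : Str → Str → ℕ) : Prop :=
  (∃ Kn : ℕ → Str → Str → ℕ, (Computable fun t : ℕ × Str × Str => Kn t.1 t.2.1 t.2.2) ∧
    (∀ n x y, Kn (n + 1) x y ≤ Kn n x y) ∧ ∀ x y, ∃ N, ∀ n ≥ N, Kn n x y = K x y) ∧
  ∀ y, ∑' x : Str, (2⁻¹ : ENNReal) ^ K x y ≤ 1

/-- witness data -/
def wt (m : ℕ) : ℕ × Str × Str × Str := (decode m).getD default

def ev (s : ℕ) (y p : Str) : Option ℕ :=
  Code.evaln s (Denumerable.ofNat Code y.length) (encode (p, y))

def W (y : Str) (t : ℕ × Str × Str × Str) : Prop :=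
  (ev t.1 y t.2.1 = some 0 ∧ ev t.1 y t.2.2.1 = some 1 ∧ ev t.1 y t.2.2.2 = some 3) ∧
    t.2.1.length = 2 ∧ t.2.2.1.length = 2 ∧ t.2.2.2.length = 3

instance (y : Str) (t : ℕ × Str × Str × Str) : Decidable (W y t) := by unfold W; infer_instance

def g (y : Str) (t : ℕ × Str × Str × Str) : ℕ :=
  if W y t then (if t.2.2.1.headI = t.2.2.2.headI then 1 else 0) else 2

def D (y : Str) (n : ℕ) : ℕ := Nat.rec 2 (fun m d => if d = 2 then g y (wt m) else d) n

def val (d e : ℕ) : ℕ := if e < 2 then (if d = e then 1 else 2) else if e = 3 then 3 else e + 3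

lemma primrec_D : Primrec₂ D := by
  have hw : Primrec wt := Primrec.option_getD.comp Primrec.decode (Primrec.const _)
  have hev : Primrec fun q : ℕ × Str × Str => ev q.1 q.2.1 q.2.2 :=
    Code.primrec_evaln.comp (Primrec.pair (Primrec.pair Primrec.fst ((Primrec.ofNat Code).comp
      (Primrec.list_length.comp (Primrec.fst.comp Primrec.snd)))) (Primrec.encode.comp
        (Primrec.pair (Primrec.snd.comp Primrec.snd) (Primrec.fst.comp Primrec.snd))))
  have h1 : Primrec fun q : Str × ℕ × Str × Str × Str => q.2.2.1 :=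
    Primrec.fst.comp (Primrec.snd.comp Primrec.snd)
  have h2 : Primrec fun q : Str × ℕ × Str × Str × Str => q.2.2.2.1 :=
    Primrec.fst.comp (Primrec.snd.comp (Primrec.snd.comp Primrec.snd))
  have h3 : Primrec fun q : Str × ℕ × Str × Str × Str => q.2.2.2.2 :=
    Primrec.snd.comp (Primrec.snd.comp (Primrec.snd.comp Primrec.snd))
  have h4 : ∀ f : Str × ℕ × Str × Str × Str → Str, Primrec f → ∀ k : ℕ,
      PrimrecPred fun q => ev q.2.1 q.1 (f q) = some k := fun f hf k =>
    Primrec.eq.comp (hev.comp ((Primrec.fst.comp Primrec.snd).pair (Primrec.fst.pair hf)))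
      (Primrec.const _)
  have h5 : ∀ f : Str × ℕ × Str × Str × Str → Str, Primrec f → ∀ k : ℕ,
      PrimrecPred fun q => (f q).length = k := fun f hf k =>
    Primrec.eq.comp (Primrec.list_length.comp hf) (Primrec.const _)
  have hW : PrimrecPred fun q : Str × ℕ × Str × Str × Str => W q.1 q.2 :=
    ((h4 _ h1 0).and ((h4 _ h2 1).and (h4 _ h3 3))).and ((h5 _ h1 2).and ((h5 _ h2 2).and
      (h5 _ h3 3)))
  have hg : Primrec₂ g := Primrec.ite hW (Primrec.ite (Primrec.eq.comp
    (Primrec.list_headI.comp h2) (Primrec.list_headI.comp h3)) (Primrec.const 1)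
      (Primrec.const 0)) (Primrec.const 2)
  exact Primrec.nat_rec (Primrec.const 2) (g := fun y (q : ℕ × ℕ) =>
    if q.2 = 2 then g y (wt q.1) else q.2) (Primrec.ite (Primrec.eq.comp
      (Primrec.snd.comp Primrec.snd) (Primrec.const 2)) (hg.comp Primrec.fst
        (hw.comp (Primrec.fst.comp Primrec.snd))) (Primrec.snd.comp Primrec.snd))

lemma D_succ (y : Str) (n : ℕ) : D y (n + 1) = if D y n = 2 then g y (wt n) else D y n := rfl

lemma D_stab (y : Str) (n : ℕ) (h : D y n ≠ 2) (m : ℕ) (hm : n ≤ m) : D y m = D y n := by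
  induction hm with
  | refl => rfl
  | step _ ih => rw [D_succ, ih, if_neg h]

lemma D_wit (y : Str) (n : ℕ) (h : D y n ≠ 2) : ∃ t, W y t ∧ D y n = g y t := by
  induction n with
  | zero => exact absurd rfl h
  | succ n ih =>
    rw [D_succ] at h ⊢
    split_ifs at h ⊢ with h1
    · refine ⟨_, ?_, rfl⟩
      by_contra h2; exact h (if_neg h2)
    · exact ih h1

open Classical in
noncomputable def DD (y : Str) : ℕ := if h : ∃ n, D y n ≠ 2 then D y h.choose else 2

lemma sum_le (d : ℕ) : ∑' x : Str, (2⁻¹ : ENNReal) ^ val d (encode x) ≤ 1 := by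
  refine (ENNReal.tsum_comp_le_tsum_of_injective encode_injective
    fun e => (2⁻¹ : ENNReal) ^ val d e).trans ?_
  rw [← Summable.sum_add_tsum_nat_add' (k := 4) ENNReal.summable]
  have h1 : ∀ i, val d (i + 4) = 7 + i := fun i => by
    unfold val; rw [if_neg (by omega), if_neg (by omega)]; omega
  simp only [h1, pow_add, ENNReal.tsum_mul_left, ENNReal.tsum_geometric, Finset.sum_range_succ]
  have h2 : (2⁻¹ : ENNReal) ^ val d 0 + 2⁻¹ ^ val d 1 ≤ 2⁻¹ ^ 1 + 2⁻¹ ^ 2 := by
    rcases d with _ | _ | d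
    · simp [val]
    · simp [val, add_comm]
    · have : val (d + 1 + 1) 0 = 2 ∧ val (d + 1 + 1) 1 = 2 := by simp [val]
      rw [this.1, this.2, pow_one]
      exact add_le_add (pow_le_of_le_one zero_le (by norm_num) two_ne_zero) le_rfl
  rw [Finset.sum_range_zero, zero_add]
  refine (add_le_add (add_le_add (add_le_add h2 le_rfl) le_rfl) le_rfl).trans ?_
  have h3 : (2⁻¹ : ENNReal) = ENNReal.ofReal 2⁻¹ := by simp [ENNReal.ofReal_inv_of_pos]
  rw [ENNReal.one_sub_inv_two, inv_inv]
  simp only [val]; norm_num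
  rw [← ENNReal.toReal_le_toReal (by finiteness) (by simp)]
  repeat rw [ENNReal.toReal_add (by finiteness) (by finiteness)]
  norm_num

lemma Cx_eq {U : Str → Str →. Str} {x y : Str} {k : ℕ} (h : Cx U x y = k) :
    ∃ p, x ∈ U p y ∧ p.length = k := by
  have : Nonempty {p : Str // x ∈ U p y} := by
    by_contra h0
    rw [not_nonempty_iff] at h0
    simp [Cx] at h
  obtain ⟨p, hp⟩ := ciInf_mem fun p : {p : Str // x ∈ U p y} => (p.1.length : ℕ∞)
  exact ⟨p.1, p.2, Nat.cast_injective (R := ℕ∞) (hp.trans h)⟩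

theorem result : ∃ K : Str → Str → ℕ, Admissible K ∧ ∀ U : Str → Str →. Str, Partrec₂ U →
    PrefixFree U ∨ PrefixStable U → ∃ x y, Cx U x y ≠ K x y := by
  refine ⟨fun x y => val (DD y) (encode x), ⟨⟨fun n x y => val (D y n) (encode x), ?_, ?_, ?_⟩,
    fun y => sum_le _⟩, fun U hU hP => ?_⟩
  · have hv : Primrec₂ val := Primrec.ite (Primrec.nat_lt.comp Primrec.snd (Primrec.const 2))
      (Primrec.ite (Primrec.eq.comp Primrec.fst Primrec.snd) (Primrec.const 1) (Primrec.const 2))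
      (Primrec.ite (Primrec.eq.comp Primrec.snd (Primrec.const 3)) (Primrec.const 3)
        (Primrec.nat_add.comp Primrec.snd (Primrec.const 3)))
    exact (hv.comp (primrec_D.comp (Primrec.snd.comp Primrec.snd) Primrec.fst)
      (Primrec.encode.comp (Primrec.fst.comp Primrec.snd))).to_comp
  · intro n x y
    by_cases h : D y n = 2
    · simp only [h, val]; split_ifs <;> omega
    · simp only [D_stab y n h (n + 1) (by omega), le_refl]
  · intro x y
    by_cases h : ∃ n, D y n ≠ 2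
    · exact ⟨h.choose, fun n hn => by simp only [DD, dif_pos h, D_stab y _ h.choose_spec n hn]⟩
    · exact ⟨0, fun n _ => by simp only [DD, dif_neg h, not_not.1 (not_exists.1 h n)]⟩
  by_contra! hC
  have hI : ∀ y p p' x x', p <+: p' → x ∈ U p y → x' ∈ U p' y → x = x' := by
    intro y p p' x x' h hx hx'
    rcases hP with hP | hP
    · obtain rfl := hP y p p' h hx.1 hx'.1
      exact Part.mem_unique hx hx'
    · exact Part.mem_unique (hP y p p' x h hx) hx'
  obtain ⟨c, hc⟩ := Code.exists_code.1 hU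
  set y : Str := List.replicate (encode c) true with hy
  have hE : ∀ p x, x ∈ U p y ↔ ∃ s, ev s y p = some (encode x) := fun p x => by
    have : Denumerable.ofNat Code y.length = c := by simp [hy]
    simp only [ev, this]
    rw [show (∃ s, c.evaln s (encode (p, y)) = some (encode x)) ↔ _ from
      Code.evaln_complete.symm, hc]
    simp
  have e0 : encode ([] : Str) = 0 := rfl
  have e1 : encode ([false] : Str) = 1 := rfl
  have e3 : encode ([true] : Str) = 3 := by decide
  by_cases h : ∃ n, D y n ≠ 2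
  · obtain ⟨⟨s, p, q, r⟩, ⟨⟨w1, w2, w3⟩, l1, l2, l3⟩, hd⟩ := D_wit y _ h.choose_spec
    have hD : DD y = if q.headI = r.headI then 1 else 0 := by
      rw [DD, dif_pos h, hd, g, if_pos ⟨⟨w1, w2, w3⟩, l1, l2, l3⟩]
    have a1 := (hE p []).2 ⟨s, w1⟩
    have a2 := (hE q [false]).2 ⟨s, w2⟩
    have a3 := (hE r [true]).2 ⟨s, e3 ▸ w3⟩
    match p, q, r, l1, l2, l3 with
    | [p1, p2], [q1, q2], [r1, r2, r3], _, _, _ =>
    by_cases hq : q1 = r1
    · obtain ⟨u, hu, lu⟩ := Cx_eq ((hC [false] y).trans (show _ = ((1 : ℕ) : ℕ∞) by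
        simp [hD, hq, val, e1]))
      match u, lu with
      | [u1], _ =>
      have b1 := fun h => hI y _ _ _ _ h hu a1
      have b2 := fun h => hI y _ _ _ _ h hu a3
      have b3 := fun h => hI y _ _ _ _ h a1 a2
      have b4 := fun h => hI y _ _ _ _ h a1 a3
      have b5 := fun h => hI y _ _ _ _ h a2 a3
      revert b1 b2 b3 b4 b5 hq
      cases p1 <;> cases p2 <;> cases q1 <;> cases q2 <;> cases r1 <;> cases r2 <;> cases u1 <;>
        simp
    · obtain ⟨u, hu, lu⟩ := Cx_eq ((hC [] y).trans (show _ = ((1 : ℕ) : ℕ∞) by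
        simp [hD, hq, val, e0]))
      match u, lu with
      | [u1], _ =>
      have b1 := fun h => hI y _ _ _ _ h hu a2
      have b2 := fun h => hI y _ _ _ _ h hu a3
      revert b1 b2 hq
      cases q1 <;> cases r1 <;> cases u1 <;> simp
  · have hD : DD y = 2 := dif_neg h
    obtain ⟨p, a1, l1⟩ := Cx_eq ((hC [] y).trans (show _ = ((2 : ℕ) : ℕ∞) by simp [hD, val, e0]))
    obtain ⟨q, a2, l2⟩ := Cx_eq ((hC [false] y).trans (show _ = ((2 : ℕ) : ℕ∞) by
      simp [hD, val, e1]))
    obtain ⟨r, a3, l3⟩ := Cx_eq ((hC [true] y).trans (show _ = ((3 : ℕ) : ℕ∞) by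
      simp [hD, val, e3]))
    obtain ⟨s1, w1⟩ := (hE _ _).1 a1
    obtain ⟨s2, w2⟩ := (hE _ _).1 a2
    obtain ⟨s3, w3⟩ := (hE _ _).1 a3
    have hw : W y (s1 + s2 + s3, p, q, r) :=
      ⟨⟨Code.evaln_mono (by omega) w1, Code.evaln_mono (by omega) w2,
        Code.evaln_mono (by omega) (e3 ▸ w3)⟩, l1, l2, l3⟩
    have h1 := not_not.1 (not_exists.1 h (encode (s1 + s2 + s3, p, q, r) + 1))
    rw [D_succ, if_pos (not_not.1 (not_exists.1 h _)), wt, encodek, Option.getD_some, g,
      if_pos hw] at h1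
    split_ifs at h1 <;> omega

end Pool.Agent.Results.MP_6b7d8e_lc.NoExact
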